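import Pool.Agent.Helper22.NEARb.Stmts
import Pool.Agent.Helper44.T5b.NearLate

/-!
# T5b, block NEARb: reduction of a pair to the local systems of the common front
-/

set_option autoImplicit false

namespace Pool.Agent.Helper22.NEARb

open Finset
open Pool.Agent.Helper5.ET hiding Key Mk AA Rp keysOf el ext
open Pool.Agent.Helper27.T4
open Pool.Agent.Helper27.T5b hiding FF_pos dvd_cs cs_lt QQ_eq_NN c0_lt Jn_pos
open Pool.Agent.Helper37.T5b
open Pool.Agent.Helper30.T5b hiding pz_prime pz_inj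
open Pool.Agent.Helper22.HW Pool.Agent.Helper57.T5
open Pool.Agent.Helper84.T5b Pool.Agent.Helper44.T5 Pool.Agent.Helper44.T5b

/-- the count depends only on the class map modulo `D` -/
theorem cN_congr_cl {U U' : Finset ℕ} {I m D κ n : ℕ} {cl cl' : ℕ → ℕ}
    (h : ∀ i, cl i ≡ cl' i [MOD D]) : cN U U' I m D cl κ n = cN U U' I m D cl' κ n := by
  unfold cN
  congr 1
  refine Finset.filter_congr (fun t _ => ?_)
  rw [h t.1]

/-- a bound for the primes of the joint families -/
theorem pJ_le (k s : ℕ) (i : JF) : pJ k s i ≤ 1000039 + BP k := by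
  rcases i with f | i
  · exact (Pool.Agent.Helper30.T5b.pr_lt_buf f).le.trans (Nat.le_add_right _ _)
  · refine Fin.cases ?_ (fun f => ?_) i
    · exact Nat.le_add_right _ _
    · exact (Pool.Agent.Helper30.T5b.pz_le k (s + 1) f).trans (Nat.le_add_left _ _)

theorem CJ_le (k s : ℕ) : CJ k s ≤ (2 * (1000039 + BP k)) ^ 7 := by
  unfold CJ
  refine (Finset.prod_le_prod' (g := fun _ => 2 * (1000039 + BP k)) (fun i _ => ?_)).trans ?_
  · have := pJ_le k s i
    omega
  · rw [Finset.prod_const]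
    simp

theorem CS_le (k s t : ℕ) : CS k s t ≤ (2 * (1000039 + BP k)) ^ 3 := by
  unfold CS
  refine (Finset.prod_le_prod' (g := fun _ => 2 * (1000039 + BP k)) (fun i _ => ?_)).trans ?_
  · have := Pool.Agent.Helper30.T5b.pz_le k (s - t) i
    omega
  · rw [Finset.prod_const]
    simp

/-- the constant of the reduction -/
noncomputable def CR (k : ℕ) : ℕ := (2 * (1000039 + BP k)) ^ 7 *
  ((2 * (1000039 + BP k)) ^ 7 * ((2 * (1000039 + BP k)) ^ 3) ^ (k + 1) * 4)

/-- Nb1 -/
theorem near_R (m k : ℕ) (hm : 2 ≤ m) : NearRS m k := by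
  obtain ⟨l0, h0⟩ := near_R_late (m := m) (by omega) k
  refine ⟨CR k, l0, ?_⟩
  intro t l' l hl' h w R hR n
  have hr := rL_le (m := m) (by omega) k l
  have ht := h.tr
  have key := h0 l l' t hl' h.le h.same (ht.le.trans h.rL_le) h.t1 ht.le h.com w R n ?_
  · refine key.trans ?_
    have hB : 1 ≤ (2 * (1000039 + BP k)) ^ 3 := Nat.one_le_pow _ _ (by omega)
    have e1 : ∏ u ∈ range t, CS k (sL m k l) u ≤ ((2 * (1000039 + BP k)) ^ 3) ^ (k + 1) := by
      refine (Finset.prod_le_prod' (g := fun _ => (2 * (1000039 + BP k)) ^ 3)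
        (fun i _ => CS_le k _ i)).trans ?_
      rw [Finset.prod_const, card_range]
      exact Nat.pow_le_pow_right hB (by omega)
    have e2 := CJ_le k (sL m k l)
    unfold CR
    generalize (2 * (1000039 + BP k)) ^ 7 = X at *
    generalize ((2 * (1000039 + BP k)) ^ 3) ^ (k + 1) = Y at *
    calc CJ k (sL m k l) * ((CJ k (sL m k l) * ∏ u ∈ range t, CS k (sL m k l) u) * (4 * R))
        ≤ X * ((X * Y) * (4 * R)) := by gcongr
      _ = X * (X * Y * 4) * R := by ring
  · intro θ hθ γ N Qi' hQi κ₂ hκ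
    have hD : 0 < DJ m k l l' t := by
      unfold DJ NN
      exact Finset.prod_pos (fun i _ => pow_pos (pJ_prime k _ i).pos _)
    have : NeZero (DJ m k l l' t) := ⟨hD.ne'⟩
    have h1 := hR (θ, γ % DJ m k l l' t, κ₂, N) ⟨hθ, Nat.mod_lt _ hD, hκ⟩
    refine le_trans (le_of_eq ?_) h1
    unfold cNx bm
    refine cN_congr_cl (fun i => ?_)
    unfold clx
    simp only
    refine Nat.ModEq.mul ?_ (Nat.ModEq.add_left _ (Nat.mod_modEq _ _).symm)
    -- the two inverses agree
    rw [← ZMod.natCast_eq_natCast_iff] at hQi ⊢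
    push_cast at hQi
    unfold Qi
    rw [ZMod.natCast_zmod_val]
    exact (ZMod.inv_eq_of_mul_eq_one _ _ _ hQi).symm

end Pool.Agent.Helper22.NEARb
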