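import Pool.Agent.Helper22.NEARb.Defs

/-!
# T5b, block NEARb: the statements of the lines
-/

set_option autoImplicit false

namespace Pool.Agent.Helper22.NEARb

open Finset
open Pool.Agent.Helper5.ET hiding Key Mk AA Rp keysOf el ext
open Pool.Agent.Helper27.T4
open Pool.Agent.Helper27.T5b Pool.Agent.Helper37.T5b
open Pool.Agent.Helper30.T5b hiding pz_prime pz_inj
open Pool.Agent.Helper22.HW Pool.Agent.Helper22.SL Pool.Agent.Helper57.T5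
open Pool.Agent.Helper39.T5 Pool.Agent.Helper50.T5
open Pool.Agent.Helper84.T5b Pool.Agent.Helper44.T5 Pool.Agent.Helper44.T5b

/-- Nb1: reduction of a pair to the local systems of the common front -/
def NearRS (m k : ℕ) : Prop := ∃ CR K0 : ℕ, ∀ t l' l, K0 ≤ l' → PDb m k t l' l →
    ∀ (w : Key → ℕ) (R : ℕ), (∀ c : Cx, IsCx m k t l' l c → cNx m k t l' l w c ≤ R) →
    ∀ n, Rp m k l l' w n ≤ CR * R

/-- Nb2: finitely many contexts suffice -/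
def BadCtxS (m k : ℕ) : Prop := ∃ K0 : ℕ, ∀ t l' l, K0 ≤ l' → PDb m k t l' l →
    ∀ (w : Key → ℕ) (R : ℝ), 0 ≤ R → Bad m k t l' l R w →
    ∃ c ∈ Jx m k t l' l, R < cNx m k t l' l w c

/-- Nb3: the number of contexts -/
def CardJxS (m k : ℕ) : Prop := ∃ K0 : ℕ, ∀ t l' l, K0 ≤ l' → PDb m k t l' l →
    ((Jx m k t l' l).card : ℝ) ≤ Real.exp (90 * wW m k l t)

/-- Nb0: numbers of a pair -/
def NumS (m k : ℕ) : Prop := ∃ K0 : ℕ, ∀ t l' l, K0 ≤ l' → PDb m k t l' l →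
    20 * (l - l') < 7 * wW m k l t ∧ hb m k t l' l ≤ 3 ∧
      (∀ i, i < rL m k l → 2 ^ 10 * wW m k l (i + 1) ≤ wW m k l i)

/-- Nb4: the static block, all contexts -/
def SlInstS (m k : ℕ) : Prop := ∃ K0 : ℕ, ∀ t l' l, K0 ≤ l' → PDb m k t l' l →
    ∀ K : Finset Key, keysOf m k l ⊆ K → keysOf m k l' ⊆ K →
    ∀ (R0 n : ℕ), 1 ≤ n → ∀ δ ε : ℝ, δ ≤ wW m k l (sb m k t l' l) → ∀ A : (Key → ℕ) → Prop,
    Pool.Agent.Helper22.SL.PrG (Mk m k) (deep m k l l' (sb m k t l' l)) A ε →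
    (∀ w : Key → ℕ, (∀ q, w q < Mk m k q) → ¬ A w →
      (∀ c ∈ Jx m k t l' l, PPx m k t l' l w c ≤ Real.exp (-δ)) ∧
      ∀ n, ((Zw m k l (sb m k t l' l) w ×ˢ Zw m k l' (sb m k t l' l) w).filter
        (fun q => q.1 + q.2 = n)).card ≤ R0) →
    Pool.Agent.Helper22.SL.PrG (Mk m k) K (fun w => ∃ c ∈ Jx m k t l' l,
      (n + 1) ^ 2 ^ (4 * hb m k t l' l) * (Pool.Agent.Helper39.SL.Cd (PN m k t l' l) * R0)
        < cNx m k t l' l w c)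
      (ε + (Jx m k t l' l).card * ((3 * (hb m k t l' l : ℝ) + 1) *
        Real.exp (42 * wW m k l t) * Real.exp (-δ) ^ (n + 1)))

/-- Nb5: regularity of all windows -/
def RegAllS (m k : ℕ) : Prop := ∃ K0 : ℕ, ∀ l i, K0 ≤ l → 1 ≤ i → i ≤ rL m k l →
    ∀ K, keysOf m k l ⊆ K →
    Pool.Agent.Helper22.SL.PrG (Mk m k) K (fun w => ¬ RegE m k l i w)
      (Real.exp (-(wW m k l i : ℝ)))

/-- Nb6: size of the windows -/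
def BwLtS (m k : ℕ) : Prop := ∃ K0 : ℕ, ∀ l i, K0 ≤ l → 1 ≤ i → i ≤ rL m k l →
    ∀ w : Key → ℕ, ∀ b ∈ Bw m k l i w,
      (b : ℝ) < Real.exp ((wW m k l i : ℝ) * lam + (wW m k l i : ℝ) / 10000)

/-- Nb7: regular windows -/
def PpRegS (m k : ℕ) : Prop := ∃ K0 : ℕ, ∀ t l' l, K0 ≤ l' → PDb m k t l' l →
    CaseReg m k t l' l → ∀ w : Key → ℕ,
    RegE m k l (sb m k t l' l) w → RegE m k l' (sb m k t l' l) w →
    ∀ c ∈ Jx m k t l' l, PPx m k t l' l w c ≤ Real.exp (-(dReg m k t l' l))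

/-- Nb8 / Nb8D: pairs of elements of the inner windows; `Ev` = no event or DROP -/
def ZbadS (Ev : ℕ → ℕ → ℕ → ℕ → Prop) (m k : ℕ) : Prop := ∃ C K0 : ℕ, ∀ l' l i, K0 ≤ l' →
    l' ≤ l → Near m k l' l → Same m k l' l → Ev m k l' l → 1 ≤ i → i ≤ rL m k l →
    ∀ K, keysOf m k l ⊆ K → keysOf m k l' ⊆ K →
    Pool.Agent.Helper22.SL.PrG (Mk m k) K (ZBad m k l' l i ((C * SS m (bL m k l) : ℕ) : ℝ))
      (C * Real.exp (-(SS m (bL m k l') : ℝ)))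

/-- Nb9 / Nb9D: the random windows, small distance -/
def PpBotS (Ev : ℕ → ℕ → ℕ → ℕ → Prop) (m k : ℕ) : Prop := ∃ K0 c0 : ℕ, ∀ t l' l, K0 ≤ l' →
    PDb m k t l' l → Ev m k l' l → CaseBt c0 m k t l' l →
    ∀ K, keysOf m k l ⊆ K → keysOf m k l' ⊆ K →
    Pool.Agent.Helper22.SL.PrG (Mk m k) K (fun w => ∃ c ∈ Jx m k t l' l,
      Real.exp (-1) < PPx m k t l' l w c) (Real.exp (-(SS m (bL m k l') : ℝ)))

/-- Nb10: exponents of the case of regular windows -/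
def NumRegS : Prop := ∃ E m0 : ℕ, ∀ m, m0 ≤ m → ∀ C : ℕ, ∃ (C1 : ℝ) (K0 : ℕ), 0 ≤ C1 ∧
    ∀ t l' l, K0 ≤ l' → PDb m (m ^ 2) t l' l → CaseReg m (m ^ 2) t l' l → ∃ n : ℕ, 1 ≤ n ∧
      42 * (wW m (m ^ 2) l t : ℝ) + 3 + SS m (bL m (m ^ 2) l) +
        90 * wW m (m ^ 2) l t ≤ (n + 1 : ℕ) * dReg m (m ^ 2) t l' l ∧
      (((n + 1) ^ 2 ^ (4 * hb m (m ^ 2) t l' l) *
        (Pool.Agent.Helper39.SL.Cd (PN m (m ^ 2) t l' l) *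
          (C * SS m (bL m (m ^ 2) l))) : ℕ) : ℝ) ≤ C1 * (l : ℝ) ^ ((E : ℝ) / (m : ℝ))

/-- Nb11: exponents of the case of random windows -/
def NumBotS : Prop := ∃ E m0 : ℕ, ∀ m, m0 ≤ m → ∀ C c : ℕ, ∃ (C1 : ℝ) (K0 : ℕ), 0 ≤ C1 ∧
    ∀ t l' l, K0 ≤ l' → PDb m (m ^ 2) t l' l → CaseBt c m (m ^ 2) t l' l → ∃ n : ℕ, 1 ≤ n ∧
      42 * (wW m (m ^ 2) l t : ℝ) + 3 + SS m (bL m (m ^ 2) l) +
        90 * wW m (m ^ 2) l t ≤ (n + 1 : ℕ) ∧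
      (((n + 1) ^ 2 ^ (4 * hb m (m ^ 2) t l' l) *
        (Pool.Agent.Helper39.SL.Cd (PN m (m ^ 2) t l' l) *
          (C * SS m (bL m (m ^ 2) l))) : ℕ) : ℝ) ≤ C1 * (l : ℝ) ^ ((E : ℝ) / (m : ℝ))

/-- Nb12: exponents of the case of few labels -/
def NumSmallS : Prop := ∃ E m0 : ℕ, ∀ m, m0 ≤ m → ∀ C c : ℕ, ∃ (C1 : ℝ) (K0 : ℕ), 0 ≤ C1 ∧
    ∀ t l' l, K0 ≤ l' → PDb m (m ^ 2) t l' l → CaseSmall c m (m ^ 2) t l' l →
      ((IJ m (m ^ 2) l l' * (C * SS m (bL m (m ^ 2) l)) : ℕ) : ℝ) ≤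
        C1 * (l : ℝ) ^ ((E : ℝ) / (m : ℝ))

/-- all lines; `Ev` = `SameB` or `Drop` -/
structure Lines (Ev : ℕ → ℕ → ℕ → ℕ → Prop) : Prop where
  nearR : ∀ m, 2 ≤ m → NearRS m (m ^ 2)
  badCtx : ∀ m, 2 ≤ m → BadCtxS m (m ^ 2)
  cardJx : ∀ m, 2 ≤ m → CardJxS m (m ^ 2)
  num : ∀ m, 2 ≤ m → NumS m (m ^ 2)
  slInst : ∀ m, 2 ≤ m → SlInstS m (m ^ 2)
  regAll : ∀ m, 2 ≤ m → RegAllS m (m ^ 2)
  ppReg : ∀ m, 2 ≤ m → PpRegS m (m ^ 2)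
  zbad : ∀ m, 2 ≤ m → ZbadS Ev m (m ^ 2)
  ppBot : ∀ m, 2 ≤ m → PpBotS Ev m (m ^ 2)
  numReg : NumRegS
  numBot : NumBotS
  numSmall : NumSmallS

end Pool.Agent.Helper22.NEARb
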