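import Pool.Agent.Helper22.NEARb.NearR
import Pool.Agent.Helper22.NEARb.Dep
import Pool.Agent.Helper22.NEAR.Glue
import Pool.Agent.Helper57.T5b.Last

/-!
# T5b, block NEARb: assembly
-/

set_option autoImplicit false

namespace Pool.Agent.Helper22.NEARb

open Finset
open Pool.Agent.Helper5.ET hiding Key Mk AA Rp keysOf el ext
open Pool.Agent.Helper27.T4
open Pool.Agent.Helper27.T5b hiding FF_pos dvd_cs cs_lt QQ_eq_NN c0_lt Jn_pos
open Pool.Agent.Helper37.T5b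
open Pool.Agent.Helper30.T5b hiding pz_prime pz_inj
open Pool.Agent.Helper22.HW Pool.Agent.Helper22.SL Pool.Agent.Helper57.T5
open Pool.Agent.Helper84.T5b Pool.Agent.Helper44.T5 Pool.Agent.Helper44.T5b

variable {Ev : ℕ → ℕ → ℕ → ℕ → Prop}

theorem MidB.mono {m E E' : ℕ} {Q Q' : ℕ → ℕ → ℕ → Prop} (h : MidB m Q E) (hE : E ≤ E')
    (hQ : ∀ t l' l, Q' t l' l → Q t l' l) : MidB m Q' E' := by
  obtain ⟨C1, c0, m', K0, h1, h2, h3, h⟩ := h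
  refine ⟨C1, c0, m', K0 + 1, h1, h2, h3, ?_⟩
  intro t l' l hl' hPD hq K hK hK'
  refine PrG_mono (fun w _ hw => ?_) le_rfl (h t l' l (by omega) hPD (hQ _ _ _ hq) K hK hK')
  obtain ⟨c, hc1, hc2⟩ := hw
  refine ⟨c, hc1, lt_of_le_of_lt (mul_le_mul_of_nonneg_left ?_ h1) hc2⟩
  refine Real.rpow_le_rpow_of_exponent_le ?_ ?_
  · have := hPD.le
    exact_mod_cast (show 1 ≤ l by omega)
  · exact div_le_div_of_nonneg_right (by exact_mod_cast hE) (Nat.cast_nonneg _)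

theorem MidB.or {m E : ℕ} {Q Q' : ℕ → ℕ → ℕ → Prop} (h : MidB m Q E) (h' : MidB m Q' E) :
    MidB m (fun t l' l => Q t l' l ∨ Q' t l' l) E := by
  obtain ⟨C1, c0, m1, K0, h1, h2, h3, h⟩ := h
  obtain ⟨C1', c0', m1', K0', h1', h2', h3', h'⟩ := h'
  refine ⟨max C1 C1', min c0 c0', max m1 m1', max K0 K0' + 1, le_max_of_le_left h1,
    lt_min h2 h2', le_max_of_le_left h3, ?_⟩
  intro t l' l hl' hPD hq K hK hK'
  have hlt := hPD.le
  have hl1 : (1 : ℝ) ≤ (l : ℝ) := by exact_mod_cast (show 1 ≤ l by omega)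
  have hr : 0 ≤ (l : ℝ) ^ ((E : ℝ) / (m : ℝ)) := Real.rpow_nonneg (Nat.cast_nonneg _) _
  have e1 : K0 ≤ max K0 K0' := le_max_left _ _
  have e2 : K0' ≤ max K0 K0' := le_max_right _ _
  rcases hq with hq | hq
  · refine PrG_mono (fun w _ hw => ?_) ?_ (h t l' l (by omega) hPD hq K hK hK')
    · obtain ⟨c, hc1, hc2⟩ := hw
      exact ⟨c, hc1, lt_of_le_of_lt (mul_le_mul_of_nonneg_right (le_max_left _ _) hr) hc2⟩
    · refine mul_le_mul (le_max_left _ _) (Real.exp_le_exp.2 (neg_le_neg ?_))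
        (Real.exp_pos _).le (le_max_of_le_left h3)
      exact Real.rpow_le_rpow_of_exponent_le hl1 (min_le_left _ _)
  · refine PrG_mono (fun w _ hw => ?_) ?_ (h' t l' l (by omega) hPD hq K hK hK')
    · obtain ⟨c, hc1, hc2⟩ := hw
      exact ⟨c, hc1, lt_of_le_of_lt (mul_le_mul_of_nonneg_right (le_max_right _ _) hr) hc2⟩
    · refine mul_le_mul (le_max_right _ _) (Real.exp_le_exp.2 (neg_le_neg ?_))
        (Real.exp_pos _).le (le_max_of_le_right h3')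
      exact Real.rpow_le_rpow_of_exponent_le hl1 (min_le_right _ _)

theorem sb_le {m k t l' l : ℕ} (h : PDb m k t l' l) : sb m k t l' l ≤ rL m k l := hb_le h.tr

theorem one_le_sb {m k t l' l : ℕ} (h : PDb m k t l' l) : 1 ≤ sb m k t l' l := by
  have := h.t1
  unfold sb
  omega

theorem zbad_congr {m k l' l s : ℕ} (hm : 0 < m) (hl : bb 0 ≤ mL m k l) (hl' : bb 0 ≤ mL m k l')
    {R : ℝ} {w w' : Key → ℕ} (h : ∀ q ∈ deep m k l l' s, w q = w' q) :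
    ZBad m k l' l s R w ↔ ZBad m k l' l s R w' := by
  obtain ⟨e1, e2⟩ := Zw_congr_deep hm hl hl' h
  unfold ZBad
  rw [e1, e2]

/-- near states are of the same size -/
theorem exists_near (m k : ℕ) (hm : 0 < m) : ∃ K0 : ℕ, ∀ t l' l, K0 ≤ l' → PDb m k t l' l →
    bb 0 ≤ mL m k l' ∧ bb 0 ≤ mL m k l ∧ l ≤ 2 * l' := by
  obtain ⟨l0, h0⟩ := exists_conds hm k
  refine ⟨l0, fun t l' l hl' h => ?_⟩
  obtain ⟨a1, -, a3, -⟩ := h0 l' hl'
  obtain ⟨b1, -, -, -⟩ := h0 l (hl'.trans h.le)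
  refine ⟨a1, b1, ?_⟩
  have hfr' : ez m (sL m k l - t) l' = ez m (sL m k l - t) l := by
    have h1 : ez m (sL m k l' - t) l' = ez m (sL m k l - t) l := h.com
    rw [h.sL_eq] at h1
    exact h1
  have h1 := dist_of_common hm h.le hfr'
  have h3 := PZ_mul hm (sL m k l - t)
  have h4 : SS m (sL m k l - t) ≤ SS m (sL m k l' + 1) :=
    SS_mono m (by have := h.sL_eq; omega)
  have h5 : mL m k l' ≤ l' := l1_le _ _
  omega

/-- from the windows to the bound of the pair -/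
theorem case_gen (L : Lines Ev) {m : ℕ} (hm : 2 ≤ m) : ∃ K0 : ℕ, ∀ t l' l, K0 ≤ l' →
    PDb m (m ^ 2) t l' l → ∀ K : Finset Key,
    keysOf m (m ^ 2) l ⊆ K → keysOf m (m ^ 2) l' ⊆ K → ∀ (n : ℕ) (δ ε X : ℝ) (R0 : ℕ)
    (A : (Key → ℕ) → Prop), 1 ≤ n → δ ≤ wW m (m ^ 2) l (sb m (m ^ 2) t l' l) →
    42 * (wW m (m ^ 2) l t : ℝ) + 3 + X + 90 * wW m (m ^ 2) l t ≤ (n + 1 : ℕ) * δ →
    (∀ w w' : Key → ℕ, (∀ q ∈ deep m (m ^ 2) l l' (sb m (m ^ 2) t l' l), w q = w' q) →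
      (A w ↔ A w')) → PrG (Mk m (m ^ 2)) K A ε →
    (∀ w : Key → ℕ, (∀ q, w q < Mk m (m ^ 2) q) → ¬ A w →
      (∀ c ∈ Jx m (m ^ 2) t l' l, PPx m (m ^ 2) t l' l w c ≤ Real.exp (-δ)) ∧
      ∀ n, ((Zw m (m ^ 2) l (sb m (m ^ 2) t l' l) w ×ˢ
        Zw m (m ^ 2) l' (sb m (m ^ 2) t l' l) w).filter (fun q => q.1 + q.2 = n)).card ≤ R0) →
    PrG (Mk m (m ^ 2)) K (Bad m (m ^ 2) t l' l
      (((n + 1) ^ 2 ^ (4 * hb m (m ^ 2) t l' l) *
        (Pool.Agent.Helper39.SL.Cd (PN m (m ^ 2) t l' l) * R0) : ℕ) : ℝ)) (ε + Real.exp (-X)) := by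
  obtain ⟨k1, h1⟩ := L.slInst m hm
  obtain ⟨k2, h2⟩ := L.badCtx m hm
  obtain ⟨k3, h3⟩ := L.cardJx m hm
  obtain ⟨k4, h4⟩ := L.num m hm
  refine ⟨k1 + k2 + k3 + k4, ?_⟩
  intro t l' l hl' h K hK hK' n δ ε X R0 A hn hδ hX hdep hA hgood
  have key := h1 t l' l (by omega) h K hK hK' R0 n hn δ ε hδ A (to_deep hK hK' hdep hA) hgood
  refine PrG_mono (fun r _ hw => ?_) ?_ key
  · obtain ⟨c, hc1, hc2⟩ := h2 t l' l (by omega) h _ _ (Nat.cast_nonneg _) hw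
    exact ⟨c, hc1, Nat.cast_lt.1 hc2⟩
  · refine add_le_add le_rfl ?_
    exact Pool.Agent.Helper63.T5.fail_num (h0 := hb m (m ^ 2) t l' l)
      (h4 t l' l (by omega) h).2.1 (h3 t l' l (by omega) h) hX

/-- `exp (- last window)` is small -/
theorem exists_last {m : ℕ} (hm : 2 ≤ m) : ∃ (c0 : ℝ) (K0 : ℕ), 0 < c0 ∧ ∀ t l' l, K0 ≤ l' →
    PDb m (m ^ 2) t l' l →
    Real.exp (-(SS m (bL m (m ^ 2) l') : ℝ)) ≤ Real.exp (-((l : ℝ) ^ c0)) ∧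
    Real.exp (-(SS m (bL m (m ^ 2) l) : ℝ)) ≤ Real.exp (-((l : ℝ) ^ c0)) := by
  obtain ⟨c0, k1, hc0, h1⟩ := Pool.Agent.Helper57.T5b.exists_le_SS_bL hm (m ^ 2)
  obtain ⟨k2, h2⟩ := exists_near m (m ^ 2) (by omega)
  refine ⟨c0 / 2, k1 + k2 + 4, by positivity, ?_⟩
  intro t l' l hl' h
  obtain ⟨-, -, h3⟩ := h2 t l' l (by omega) h
  have h4 := h1 l' (by omega)
  have h5 := h1 l (by have := h.le; omega)
  have hle := h.le
  have hl1 : (1 : ℝ) ≤ (l : ℝ) := by exact_mod_cast (show 1 ≤ l by omega)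
  have h6 : (l : ℝ) ^ (c0 / 2) ≤ (l' : ℝ) ^ c0 := by
    have h7 : (l : ℝ) ≤ (l' : ℝ) ^ (2 : ℝ) := by
      have h8 : l ≤ l' ^ 2 := by nlinarith
      rw [Real.rpow_two]
      exact_mod_cast h8
    calc (l : ℝ) ^ (c0 / 2) ≤ ((l' : ℝ) ^ (2 : ℝ)) ^ (c0 / 2) :=
          Real.rpow_le_rpow (Nat.cast_nonneg _) h7 (by positivity)
      _ = (l' : ℝ) ^ c0 := by
          rw [← Real.rpow_mul (Nat.cast_nonneg _)]
          congr 1
          ring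
  refine ⟨Real.exp_le_exp.2 (neg_le_neg (h6.trans h4)), Real.exp_le_exp.2 (neg_le_neg ?_)⟩
  exact (Real.rpow_le_rpow_of_exponent_le hl1 (by linarith)).trans h5

/-- the pairs of a case from the probability that the windows are bad -/
theorem mid_of (L : Lines Ev) {m E : ℕ} (hm : 2 ≤ m) {Q : ℕ → ℕ → ℕ → Prop}
    {δ : ℕ → ℕ → ℕ → ℝ}
    (hδ : ∀ t l' l, PDb m (m ^ 2) t l' l → Q t l' l →
      δ t l' l ≤ wW m (m ^ 2) l (sb m (m ^ 2) t l' l))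
    (hnum : ∀ C : ℕ, ∃ (C1 : ℝ) (K0 : ℕ), 0 ≤ C1 ∧
      ∀ t l' l, K0 ≤ l' → PDb m (m ^ 2) t l' l → Q t l' l → ∃ n : ℕ, 1 ≤ n ∧
        42 * (wW m (m ^ 2) l t : ℝ) + 3 + SS m (bL m (m ^ 2) l) +
          90 * wW m (m ^ 2) l t ≤ (n + 1 : ℕ) * δ t l' l ∧
        (((n + 1) ^ 2 ^ (4 * hb m (m ^ 2) t l' l) *
          (Pool.Agent.Helper39.SL.Cd (PN m (m ^ 2) t l' l) *
            (C * SS m (bL m (m ^ 2) l))) : ℕ) : ℝ) ≤ C1 * (l : ℝ) ^ ((E : ℝ) / (m : ℝ)))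
    (hP : ∃ (K0 : ℕ) (b : ℝ), 0 ≤ b ∧ ∀ t l' l, K0 ≤ l' → PDb m (m ^ 2) t l' l →
      Ev m (m ^ 2) l' l → Q t l' l → ∀ K,
      keysOf m (m ^ 2) l ⊆ K → keysOf m (m ^ 2) l' ⊆ K →
      PrG (Mk m (m ^ 2)) K (fun w => ∃ c ∈ Jx m (m ^ 2) t l' l,
        Real.exp (-(δ t l' l)) < PPx m (m ^ 2) t l' l w c)
        (b * Real.exp (-(SS m (bL m (m ^ 2) l') : ℝ)))) :
    MidB m (fun t l' l => Ev m (m ^ 2) l' l ∧ Q t l' l) E := by
  obtain ⟨C, k0, hz⟩ := L.zbad m hm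
  obtain ⟨C1, k1, hC1, hn⟩ := hnum C
  obtain ⟨k2, b, hb0, hp⟩ := hP
  obtain ⟨c0, k3, hc0, hlast⟩ := exists_last hm
  obtain ⟨k4, hgen⟩ := case_gen L hm
  obtain ⟨k5, hnear⟩ := exists_near m (m ^ 2) (by omega)
  refine ⟨C1, c0, b + C + 1, k0 + k1 + k2 + k3 + k4 + k5, hC1, hc0, by positivity, ?_⟩
  rintro t l' l hl' h ⟨hEv, hq⟩ K hK hK'
  obtain ⟨n, hn1, hn2, hn3⟩ := hn t l' l (by omega) h hq
  have hzz := hz l' l (sb m (m ^ 2) t l' l) (by omega) h.le h.near h.same hEv (one_le_sb h)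
    (sb_le h) K hK hK'
  have hpp := hp t l' l (by omega) h hEv hq K hK hK'
  obtain ⟨g1, g2, -⟩ := hnear t l' l (by omega) h
  obtain ⟨e1, e2⟩ := hlast t l' l (by omega) h
  -- the bad event of the windows
  have hdep : ∀ w w' : Key → ℕ,
      (∀ q ∈ deep m (m ^ 2) l l' (sb m (m ^ 2) t l' l), w q = w' q) →
      (((∃ c ∈ Jx m (m ^ 2) t l' l, Real.exp (-(δ t l' l)) < PPx m (m ^ 2) t l' l w c) ∨
        ZBad m (m ^ 2) l' l (sb m (m ^ 2) t l' l) ((C * SS m (bL m (m ^ 2) l) : ℕ) : ℝ) w) ↔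
      ((∃ c ∈ Jx m (m ^ 2) t l' l, Real.exp (-(δ t l' l)) < PPx m (m ^ 2) t l' l w' c) ∨
        ZBad m (m ^ 2) l' l (sb m (m ^ 2) t l' l)
          ((C * SS m (bL m (m ^ 2) l) : ℕ) : ℝ) w')) := by
    intro w w' hww
    obtain ⟨d1, d2⟩ := Bw_congr_deep (by omega) g2 g1 hww
    have d3 : ∀ c, PPx m (m ^ 2) t l' l w c = PPx m (m ^ 2) t l' l w' c := by
      intro c
      unfold PPx
      rw [d1, d2]
    rw [zbad_congr (by omega) g2 g1 hww]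
    simp only [d3]
  have key := hgen t l' l (by omega) h K hK hK' n (δ t l' l) _ (SS m (bL m (m ^ 2) l))
    (C * SS m (bL m (m ^ 2) l)) _ hn1 (hδ t l' l h hq) hn2 hdep (PrG_or hpp hzz)
    (fun w hw hA => by
      rw [not_or] at hA
      refine ⟨fun c hcJ => ?_, fun n => ?_⟩
      · by_contra hlt
        exact hA.1 ⟨c, hcJ, not_le.1 hlt⟩
      · by_contra hlt
        exact hA.2 ⟨n, Nat.cast_lt.2 (not_le.1 hlt)⟩)
  refine PrG_mono (fun r _ hw => ?_) ?_ key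
  · obtain ⟨c, hc1, hc2⟩ := hw
    exact ⟨c, hc1, lt_of_le_of_lt hn3 hc2⟩
  · have e3 := mul_le_mul_of_nonneg_left e1 hb0
    have e4 := mul_le_mul_of_nonneg_left e1 (Nat.cast_nonneg (α := ℝ) C)
    linarith

/-- **regular windows** -/
theorem case_reg (L : Lines Ev) : ∃ E m0 : ℕ, ∀ m, m0 ≤ m →
    MidB m (fun t l' l => Ev m (m ^ 2) l' l ∧ CaseReg m (m ^ 2) t l' l) E := by
  obtain ⟨E, m0, hE⟩ := L.numReg
  refine ⟨E, m0 + 2, fun m hm => mid_of L (by omega)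
    (δ := fun t l' l => dReg m (m ^ 2) t l' l) ?_ (hE m (by omega)) ?_⟩
  · intro t l' l _ _
    unfold dReg
    have : (0 : ℝ) ≤ wW m (m ^ 2) l (sb m (m ^ 2) t l' l) := Nat.cast_nonneg _
    linarith
  · obtain ⟨k1, h1⟩ := L.regAll m (by omega)
    obtain ⟨k2, h2⟩ := L.ppReg m (by omega)
    refine ⟨k1 + k2, 2, by norm_num, ?_⟩
    intro t l' l hl' h _ hq K hK hK'
    have hs := sb_le h
    have hs1 := one_le_sb h
    have r1 := h1 l _ (by have := h.le; omega) hs1 hs K hK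
    have r2 := h1 l' (sb m (m ^ 2) t l' l) (by omega) hs1 (hs.trans h.rL_le) K hK'
    refine PrG_mono (fun r _ hw => ?_) ?_ (PrG_or r1 r2)
    · by_contra hcon
      rw [not_or, not_not, not_not] at hcon
      obtain ⟨c, hcJ, hlt⟩ := hw
      exact absurd (h2 t l' l (by omega) h hq _ hcon.1 hcon.2 c hcJ) (not_le.2 hlt)
    · have e1 : SS m (bL m (m ^ 2) l') ≤ wW m (m ^ 2) l (sb m (m ^ 2) t l' l) := by
        unfold wW
        refine SS_mono m ?_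
        have a1 := h.ble
        have a2 : rL m (m ^ 2) l = sL m (m ^ 2) l - bL m (m ^ 2) l := rfl
        have a3 := h.tr
        omega
      have e2 : SS m (bL m (m ^ 2) l') ≤ wW m (m ^ 2) l' (sb m (m ^ 2) t l' l) := by
        rw [h.wW_eq]
        exact e1
      have f1 : Real.exp (-(wW m (m ^ 2) l (sb m (m ^ 2) t l' l) : ℝ)) ≤
          Real.exp (-(SS m (bL m (m ^ 2) l') : ℝ)) :=
        Real.exp_le_exp.2 (neg_le_neg (Nat.cast_le.2 e1))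
      have f2 : Real.exp (-(wW m (m ^ 2) l' (sb m (m ^ 2) t l' l) : ℝ)) ≤
          Real.exp (-(SS m (bL m (m ^ 2) l') : ℝ)) :=
        Real.exp_le_exp.2 (neg_le_neg (Nat.cast_le.2 e2))
      linarith

/-- **random windows** -/
theorem case_bot (L : Lines Ev) : ∃ E m0 : ℕ, ∀ m, m0 ≤ m → ∃ c : ℕ,
    MidB m (fun t l' l => Ev m (m ^ 2) l' l ∧ CaseBt c m (m ^ 2) t l' l) E := by
  obtain ⟨E, m0, hE⟩ := L.numBot
  refine ⟨E, m0 + 2, fun m hm => ?_⟩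
  obtain ⟨k0, c, h0⟩ := L.ppBot m (by omega)
  refine ⟨c, mid_of L (by omega) (δ := fun _ _ _ => 1) ?_ ?_ ⟨k0, 1, by norm_num, ?_⟩⟩
  · intro t l' l _ _
    have : 1 ≤ wW m (m ^ 2) l (sb m (m ^ 2) t l' l) := by
      unfold wW SS
      exact Nat.one_le_two_pow
    exact_mod_cast this
  · intro C
    obtain ⟨C1, K0, hC1, h⟩ := hE m (by omega) C c
    refine ⟨C1, K0, hC1, fun t l' l hl' hPD hq => ?_⟩
    obtain ⟨n, h1, h2, h3⟩ := h t l' l hl' hPD hq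
    exact ⟨n, h1, by rw [mul_one]; exact h2, h3⟩
  · intro t l' l hl' h hEv hq K hK hK'
    rw [one_mul]
    exact h0 t l' l hl' h hEv hq K hK hK'

/-- **few labels** -/
theorem case_small (L : Lines Ev) : ∃ E m0 : ℕ, ∀ m, m0 ≤ m → ∀ c : ℕ,
    MidB m (fun t l' l => Ev m (m ^ 2) l' l ∧ CaseSmall c m (m ^ 2) t l' l) E := by
  obtain ⟨E, m0, hE⟩ := L.numSmall
  refine ⟨E, m0 + 2, fun m hm c => ?_⟩
  obtain ⟨C, k0, hz⟩ := L.zbad m (by omega)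
  obtain ⟨C1, k1, hC1, hn⟩ := hE m (by omega) C c
  obtain ⟨c0, k3, hc0, hlast⟩ := exists_last (m := m) (by omega)
  refine ⟨C1, c0, C, k0 + k1 + k3, hC1, hc0, Nat.cast_nonneg _, ?_⟩
  rintro t l' l hl' h ⟨hEv, hq⟩ K hK hK'
  have hzz := hz l' l t (by omega) h.le h.near h.same hEv h.t1 h.tr.le K hK hK'
  obtain ⟨e1, e2⟩ := hlast t l' l (by omega) h
  have h3 := hn t l' l (by omega) h hq
  refine PrG_mono (fun r _ hw => ?_)
    (mul_le_mul_of_nonneg_left e1 (Nat.cast_nonneg (α := ℝ) C)) hzz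
  by_contra hcon
  obtain ⟨c, _, hc2⟩ := hw
  have hR : ∀ n, ((Zw m (m ^ 2) l t (ext K r) ×ˢ Zw m (m ^ 2) l' t (ext K r)).filter
      (fun q => q.1 + q.2 = n)).card ≤ C * SS m (bL m (m ^ 2) l) := by
    intro n
    by_contra hlt
    exact hcon ⟨n, Nat.cast_lt.2 (not_le.1 hlt)⟩
  have h5 : cNx m (m ^ 2) t l' l (ext K r) c ≤
      IJ m (m ^ 2) l l' * (C * SS m (bL m (m ^ 2) l)) :=
    Pool.Agent.Helper22.NEAR.cN_le_leaf hR
  have h6 : (cNx m (m ^ 2) t l' l (ext K r) c : ℝ) ≤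
      ((IJ m (m ^ 2) l l' * (C * SS m (bL m (m ^ 2) l)) : ℕ) : ℝ) := Nat.cast_le.2 h5
  linarith

/-- **all pairs with a common front which is not the last one** -/
theorem mid_all (L : Lines Ev) : ∃ E m0 : ℕ, ∀ m, m0 ≤ m →
    MidB m (fun _ l' l => Ev m (m ^ 2) l' l) E := by
  obtain ⟨E1, m1, h1⟩ := case_reg L
  obtain ⟨E2, m2, h2⟩ := case_bot L
  obtain ⟨E3, m3, h3⟩ := case_small L
  refine ⟨max E1 (max E2 E3), m1 + m2 + m3, fun m hm => ?_⟩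
  obtain ⟨c, h2⟩ := h2 m (by omega)
  have a1 := (h1 m (by omega)).mono (E' := max E1 (max E2 E3)) (le_max_left _ _)
    (fun _ _ _ h => h)
  have a2 := h2.mono (E' := max E1 (max E2 E3)) ((le_max_left _ _).trans (le_max_right _ _))
    (fun _ _ _ h => h)
  have a3 := (h3 m (by omega) c).mono (E' := max E1 (max E2 E3))
    ((le_max_right _ _).trans (le_max_right _ _)) (fun _ _ _ h => h)
  obtain ⟨C1, c0, m', K0, x1, x2, x3, h⟩ := a1.or (a2.or a3)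
  refine ⟨C1, c0, m', K0, x1, x2, x3, ?_⟩
  intro t l' l hl' hPD hEv K hK hK'
  refine h t l' l hl' hPD ?_ K hK hK'
  have e1 := hb_spec m (m ^ 2) t l' l
  have e2 := hb_le (m := m) (k := m ^ 2) (l' := l') hPD.tr
  by_cases hr : CaseReg m (m ^ 2) t l' l
  · exact Or.inl ⟨hEv, hr⟩
  by_cases hs : CaseSmall c m (m ^ 2) t l' l
  · exact Or.inr (Or.inr ⟨hEv, hs⟩)
  refine Or.inr (Or.inl ⟨hEv, ?_⟩)
  unfold CaseReg sb at hr
  unfold CaseSmall at hs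
  have e4 : t + hb m (m ^ 2) t l' l = rL m (m ^ 2) l := by
    rcases e1 with e1 | e1
    · exact absurd e1 hr
    · omega
  refine ⟨e4, ?_, not_lt.1 hs⟩
  rw [e4] at hr
  have e5 : wW m (m ^ 2) l (rL m (m ^ 2) l) = SS m (bL m (m ^ 2) l) := by
    unfold wW rL
    have : sL m (m ^ 2) l - bL m (m ^ 2) l = rL m (m ^ 2) l := rfl
    have h6 := hPD.tr
    congr 1
    omega
  rw [e5] at hr
  exact not_le.1 hr

/-- the pairs of the property `P` from the local systems -/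
theorem blk_of (L : Lines Ev) {P : ℕ → ℕ → ℕ → ℕ → Prop}
    (hP : ∀ m k l' l, l' ≤ l → P m k l' l → ∃ t, PDb m k t l' l ∧ Ev m k l' l) :
    Blk P RpC := by
  obtain ⟨E, m0, hE⟩ := mid_all L
  refine ⟨E, m0 + 2, fun m hm => ?_⟩
  obtain ⟨C1, c0, m', K0, h1, h2, h3, h⟩ := hE m (by omega)
  obtain ⟨CR, K1, hR⟩ := near_R m (m ^ 2) (by omega)
  refine ⟨K0 + K1, CR * C1, c0, m', by positivity, h2, h3, ?_⟩
  intro l l' hl' hll hPl K hK hK'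
  obtain ⟨t, hPD, hEv⟩ := hP m (m ^ 2) l' l hll hPl
  have key := h t l' l (by omega) hPD hEv K hK hK'
  rw [← Pool.Agent.Helper22.NEAR.PrG_iff_PrLe]
  refine PrG_mono (fun r _ hw => ?_) le_rfl key
  obtain ⟨c, ⟨n, hc⟩, hn⟩ := hw
  subst hc
  by_contra hcon
  have hbound : ∀ c : Cx, IsCx m (m ^ 2) t l' l c → cNx m (m ^ 2) t l' l (ext K r) c ≤
        ⌊C1 * (l : ℝ) ^ ((E : ℝ) / (m : ℝ))⌋₊ := by
    intro c hc1
    refine Nat.le_floor ?_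
    by_contra hlt
    exact hcon ⟨c, hc1, not_le.1 hlt⟩
  have hRp := hR t l' l (by omega) hPD _ _ hbound n
  have hx : 0 ≤ C1 * (l : ℝ) ^ ((E : ℝ) / (m : ℝ)) :=
    mul_nonneg h1 (Real.rpow_nonneg (Nat.cast_nonneg _) _)
  have e1 : (Rp m (m ^ 2) l l' (ext K r) n : ℝ) ≤
      CR * (C1 * (l : ℝ) ^ ((E : ℝ) / (m : ℝ))) := by
    calc (Rp m (m ^ 2) l l' (ext K r) n : ℝ)
        ≤ ((CR * ⌊C1 * (l : ℝ) ^ ((E : ℝ) / (m : ℝ))⌋₊ : ℕ) : ℝ) := Nat.cast_le.2 hRp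
      _ = CR * (⌊C1 * (l : ℝ) ^ ((E : ℝ) / (m : ℝ))⌋₊ : ℝ) := Nat.cast_mul _ _
      _ ≤ _ := mul_le_mul_of_nonneg_left (Nat.floor_le hx) (Nat.cast_nonneg _)
  rw [mul_assoc] at hn
  exact absurd e1 (not_le.2 hn)

/-- **line 3: `Blk CaseStat RpC`**, from the lines of the block -/
theorem blk_stat_of (L : Lines SameB) : Blk CaseStat RpC :=
  blk_of L (fun _ _ _ _ hl h => PDb.of_case hl h)

/-- **`Blk CaseStatD RpC`**, from the lines of the block -/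
theorem blk_statD_of (L : Lines Drop) : Blk CaseStatD RpC :=
  blk_of L (fun _ _ _ _ hl h => PDb.of_caseD hl h)

end Pool.Agent.Helper22.NEARb
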