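import Pool.Agent.Helper84.T5b.Pair
import Pool.Agent.Helper44.T5b.NearR
import Pool.Agent.Helper39.SL.Union
import Pool.Agent.Helper45.T5b.RegB
import Pool.Agent.Helper63.T5.SLNumInst

/-!
# T5b, block NEARb (pairs of near states with a common front of a static level): definitions

`k` active levels, `s = sL m k l` split levels.  `t` is the number of the finest common front
(`1 ≤ t < rL m k l`); the levels below it are the static levels `t, t + 1, ..., rL - 1` (the triples
`s - t, s - t - 1, ...`), the window below the front number `i` has `wW m k l i` digits.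
-/

set_option autoImplicit false

namespace Pool.Agent.Helper22.NEARb

open Finset
open Pool.Agent.Helper5.ET hiding Key Mk AA Rp keysOf el ext
open Pool.Agent.Helper27.T4
open Pool.Agent.Helper27.T5b Pool.Agent.Helper37.T5b
open Pool.Agent.Helper30.T5b hiding pz_prime pz_inj
open Pool.Agent.Helper22.HW Pool.Agent.Helper22.SL Pool.Agent.Helper57.T5
open Pool.Agent.Helper39.T5 Pool.Agent.Helper50.T5
open Pool.Agent.Helper84.T5b Pool.Agent.Helper44.T5 Pool.Agent.Helper44.T5b

/-- digits of the window below the front number `i` of the state `l` -/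
noncomputable def wW (m k l i : ℕ) : ℕ := SS m (sL m k l - i)

/-- the data of a pair of near states without SPLIT between them (one DROP is allowed), finest
common front `t` -/
structure PDb (m k t l' l : ℕ) : Prop where
  le : l' ≤ l
  near : Near m k l' l
  same : Same m k l' l
  ble : bL m k l' ≤ bL m k l
  t1 : 1 ≤ t
  tr : t < rL m k l
  com : ef m k l' t = ef m k l t
  jump : ∀ i, t < i → i ≤ rL m k l → ef m k l' i ≠ ef m k l i

/-- the common form of the two cases -/
theorem PDb.of_fin {m k l' l : ℕ} (hl : l' ≤ l) (h1 : Near m k l' l) (h2 : Same m k l' l)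
    (h3 : bL m k l' ≤ bL m k l) {u : ℕ} (h4 : bL m k l < u) (h : FinCf m k l' l u) :
    PDb m k (sL m k l - u) l' l := by
  obtain ⟨⟨h5, h6, h7⟩, h8⟩ := h
  have e2 : sL m k l' = sL m k l := h2
  refine ⟨hl, h1, h2, h3, by omega, ?_, ?_, ?_⟩
  · unfold rL
    omega
  · unfold ef
    rw [e2, show sL m k l - (sL m k l - u) = u by omega]
    exact h7
  · intro i hi1 hi2 he
    unfold rL at hi2
    unfold ef at he
    rw [e2] at he
    exact h8 (sL m k l - i) (by omega) ⟨by omega, by omega, he⟩

/-- the case `CaseStat` -/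
theorem PDb.of_case {m k l' l : ℕ} (hl : l' ≤ l) (h : CaseStat m k l' l) :
    ∃ t, PDb m k t l' l ∧ SameB m k l' l := by
  obtain ⟨h1, h2, h3, u, h4, h5⟩ := h
  exact ⟨_, PDb.of_fin hl h1 h2 (le_of_eq h3) h4 h5, h3⟩

/-- the case `CaseStatD` -/
theorem PDb.of_caseD {m k l' l : ℕ} (hl : l' ≤ l) (h : CaseStatD m k l' l) :
    ∃ t, PDb m k t l' l ∧ Drop m k l' l := by
  obtain ⟨h1, h2, h3, u, h4, h5⟩ := h
  refine ⟨_, PDb.of_fin hl h1 h2 ?_ h4 h5, h3⟩
  unfold Drop at h3
  omega

theorem PDb.lt {m k t l' l : ℕ} (h : PDb m k t l' l) : l' < l := by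
  rcases Nat.lt_or_ge l' l with h1 | h1
  · exact h1
  · exfalso
    have e : l' = l := le_antisymm h.le h1
    have h2 := h.jump (t + 1) (by omega) (by have := h.tr; omega)
    exact h2 (by rw [e])

theorem PDb.sL_eq {m k t l' l : ℕ} (h : PDb m k t l' l) : sL m k l' = sL m k l := h.same

theorem PDb.rL_le {m k t l' l : ℕ} (h : PDb m k t l' l) : rL m k l ≤ rL m k l' := by
  have e2 := h.sL_eq
  have e3 := h.ble
  unfold rL
  omega

theorem PDb.wW_eq {m k t l' l : ℕ} (h : PDb m k t l' l) (i : ℕ) : wW m k l' i = wW m k l i := by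
  unfold wW
  rw [h.sL_eq]

/-! ## windows -/

/-- the same in units of `Jn m k s l * LL t` -/
noncomputable def Bw (m k l t : ℕ) (w : Key → ℕ) : Finset ℕ :=
  (Zw m k l t w).image (fun u => u / (Jn m k (sL m k l) l * LL (QQ m k (sL m k l)) t))

/-- the keys of the static levels `≥ s` and of the window set -/
def isDeep (s : ℕ) : Key → Prop
  | Key.J _ _ _ => False
  | Key.S _ t _ _ _ => s ≤ t
  | Key.V _ _ _ => True

open Classical in
/-- the deep keys of a state -/
noncomputable def keysD (m k l s : ℕ) : Finset Key := (keysOf m k l).filter (isDeep s)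

/-- the deep keys of a pair -/
noncomputable def deep (m k l l' s : ℕ) : Finset Key := keysD m k l s ∪ keysD m k l' s

/-! ## the local system -/

/-- the modulus of the lower state and of the static levels above the common front -/
noncomputable def bm (m k t l' l : ℕ) : ℕ := Jn m k (sL m k l) l' * LL (QQ m k (sL m k l)) t

/-- inverse of the modulus of the static levels above the common front modulo `DJ` -/
noncomputable def Qi (m k t l' l : ℕ) : ℕ :=
  (((LL (QQ m k (sL m k l)) t : ℕ) : ZMod (DJ m k l l' t))⁻¹).val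

/-- contexts: `θ`, `γ`, `κ₂`, `N` -/
abbrev Cx : Type := (JF → ℕ × ℕ) × ℕ × ℕ × ℕ

/-- the class map of a context -/
noncomputable def clx (m k t l' l : ℕ) (c : Cx) (i : ℕ) : ℕ :=
  Qi m k t l' l * (clJ m k l l' t c.1 i + c.2.1)

/-- the number of solutions of the local system of a pair of states in a context -/
noncomputable def cNx (m k t l' l : ℕ) (w : Key → ℕ) (c : Cx) : ℕ :=
  cN (Zw m k l t w) (Zw m k l' t w) (IJ m k l l') (bm m k t l' l)
    (DJ m k l l' t) (clx m k t l' l c) c.2.2.1 (bm m k t l' l * c.2.2.2)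

/-- the contexts -/
def IsCx (m k t l' l : ℕ) (c : Cx) : Prop :=
  c.1 ∈ Theta (pJ k (sL m k l)) (dJ m k l l' t) ∧ c.2.1 < DJ m k l l' t ∧ c.2.2.1 < 4

/-- some local system of the pair has more than `R` solutions -/
def Bad (m k t l' l : ℕ) (R : ℝ) (w : Key → ℕ) : Prop :=
  ∃ c : Cx, IsCx m k t l' l c ∧ R < cNx m k t l' l w c

/-- a finite set of contexts -/
noncomputable def Jx (m k t l' l : ℕ) : Finset Cx :=
  Theta (pJ k (sL m k l)) (dJ m k l l' t) ×ˢ (range (DJ m k l l' t) ×ˢ
    (range 4 ×ˢ range ((10 ^ 6) ^ (3 * wW m k l t))))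

/-! ## the levels used for a pair -/

theorem exists_hb (m k t l' l : ℕ) : ∃ h, 1 ≤ h ∧
    (7 * wW m k l (t + h) ≤ 20 * (l - l') ∨ rL m k l ≤ t + h) :=
  ⟨rL m k l + 1, by omega, by omega⟩

open Classical in
/-- number of static levels used for the pair -/
noncomputable def hb (m k t l' l : ℕ) : ℕ := Nat.find (exists_hb m k t l' l)

theorem hb_pos (m k t l' l : ℕ) : 1 ≤ hb m k t l' l := (Nat.find_spec (exists_hb m k t l' l)).1

theorem hb_spec (m k t l' l : ℕ) : 7 * wW m k l (t + hb m k t l' l) ≤ 20 * (l - l') ∨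
    rL m k l ≤ t + hb m k t l' l := (Nat.find_spec (exists_hb m k t l' l)).2

theorem lt_hb {m k t l' l h : ℕ} (h1 : 1 ≤ h) (h2 : h < hb m k t l' l) :
    20 * (l - l') < 7 * wW m k l (t + h) ∧ t + h < rL m k l := by
  have := Nat.find_min (exists_hb m k t l' l) h2
  omega

theorem hb_le {m k t l' l : ℕ} (ht : t < rL m k l) : t + hb m k t l' l ≤ rL m k l := by
  rcases Nat.lt_or_ge 1 (hb m k t l' l) with h | h
  · have := lt_hb (m := m) (k := k) (t := t) (l' := l') (l := l)
      (h := hb m k t l' l - 1) (by omega) (by omega)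
    omega
  · omega

/-- the pair as an instance of the static block -/
noncomputable def PN (m k t l' l : ℕ) : Pr Key where
  h := hb m k t l' l
  p := fun r => pz k (sL m k l - (t + r))
  z := fun r => zf m k (sL m k l - (t + r))
  M := Jn m k (sL m k l) l
  M' := Jn m k (sL m k l) l'
  L0 := LL (QQ m k (sL m k l)) t
  F := fun r => FF m k l (t + r)
  F' := fun r => FF m k l' (t + r)
  Y := fun r => Ys m k l (t + r)
  key := fun r => (Ss m k l (t + r) 0).key
  key' := fun r => (Ss m k l' (t + r) 0).key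

/-- index of the windows below the static levels of the pair -/
noncomputable def sb (m k t l' l : ℕ) : ℕ := t + hb m k t l' l

/-- number of the targets of a context -/
noncomputable def nTx (m k t l' l : ℕ) (c : Cx) : ℕ :=
  Pool.Agent.Helper39.SL.nT (IJ m k l l') ((PN m k t l' l).M' * (PN m k t l' l).L0)
    (DJ m k l l' t) c.2.2.1 (bm m k t l' l * c.2.2.2) (clx m k t l' l c)

/-- the targets of a context -/
noncomputable def XTx (m k t l' l : ℕ) (c : Cx) : ℕ → ℕ :=
  Pool.Agent.Helper39.SL.XT (IJ m k l l') ((PN m k t l' l).M' * (PN m k t l' l).L0)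
    (DJ m k l l' t) c.2.2.1 (bm m k t l' l * c.2.2.2) (clx m k t l' l c)

/-- the number `PP * A * pc` of the windows of a pair in a context -/
noncomputable def PPx (m k t l' l : ℕ) (w : Key → ℕ) (c : Cx) : ℝ :=
  PP (PN m k t l' l) (nTx m k t l' l c) (XTx m k t l' l c)
    (Bw m k l (sb m k t l' l) w) (Bw m k l' (sb m k t l' l) w) *
      (PN m k t l' l).A (PN m k t l' l).h * (PN m k t l' l).pc (PN m k t l' l).h

/-- `log 10 ^ 6` -/
noncomputable abbrev lam : ℝ := Pool.Agent.Helper63.T5.lam

/-- one-sided regularity of the windows of the state `l` below the front number `i` -/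
def RegE (m k l i : ℕ) (w : Key → ℕ) : Prop :=
  ∃ Q : ℕ, (∀ f n, (pJ k (sL m k l) f ^ n).Coprime Q) ∧
    Pool.Agent.Helper45.T5.RegSet (Bw m k l i w) Q (Real.exp ((wW m k l i : ℝ) / 10000))
      (Real.exp ((wW m k l i : ℝ) * lam / 2 - (wW m k l i : ℝ) / 10000))

/-- more than `R` pairs of elements of the windows below the front number `i` with a given sum -/
def ZBad (m k l' l i : ℕ) (R : ℝ) (w : Key → ℕ) : Prop :=
  ∃ n, R < (((Zw m k l i w ×ˢ Zw m k l' i w).filter (fun q => q.1 + q.2 = n)).card : ℝ)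

/-! ## the cases -/

/-- a bound for the pairs with the property `Q`, exponent `E / m`, `k = m ^ 2` -/
def MidB (m : ℕ) (Q : ℕ → ℕ → ℕ → Prop) (E : ℕ) : Prop :=
  ∃ (C1 c0 m' : ℝ) (K0 : ℕ), 0 ≤ C1 ∧ 0 < c0 ∧ 0 ≤ m' ∧
    ∀ t l' l, K0 ≤ l' → PDb m (m ^ 2) t l' l → Q t l' l →
      ∀ K, keysOf m (m ^ 2) l ⊆ K → keysOf m (m ^ 2) l' ⊆ K →
        Pool.Agent.Helper22.SL.PrG (Mk m (m ^ 2)) K
          (Bad m (m ^ 2) t l' l (C1 * (l : ℝ) ^ ((E : ℝ) / (m : ℝ))))
          (m' * Real.exp (-((l : ℝ) ^ c0)))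

/-- the deeper windows are treated by regularity -/
def CaseReg (m k t l' l : ℕ) : Prop := 7 * wW m k l (sb m k t l' l) ≤ 20 * (l - l')

/-- the deeper windows are the random windows, and they are longer than the distance -/
def CaseBt (c m k t l' l : ℕ) : Prop :=
  sb m k t l' l = rL m k l ∧ 20 * (l - l') < 7 * SS m (bL m k l) ∧
    aa m (sL m k l) / m + c ≤ l - l'

/-- few labels -/
def CaseSmall (c m k _t l' l : ℕ) : Prop := l - l' < aa m (sL m k l) / m + c

/-- the number `ρ = exp (-δ)` of the case of regular windows -/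
noncomputable def dReg (m k t l' l : ℕ) : ℝ := (wW m k l (sb m k t l' l) : ℝ) / 200

end Pool.Agent.Helper22.NEARb
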