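import Pool.Agent.Helper22.NEARb.Glue
import Pool.Agent.Helper39.T5b.Nb4
import Pool.Agent.Helper45.T5b.Nb5V
import Pool.Agent.Helper50.T5b.BadCtx
import Pool.Agent.Helper57.T5b.Nb8
import Pool.Agent.Helper83.T5b.ZbadD
import Pool.Agent.Helper37.T5b.NumB
import Pool.Agent.Helper2.T5b.NumSmall

/-!
# T5b, block NEARb: the lines which are proved
-/

set_option autoImplicit false

namespace Pool.Agent.Helper22.NEARb

open Finset
open Pool.Agent.Helper5.ET hiding Key Mk AA Rp keysOf el ext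
open Pool.Agent.Helper27.T4
open Pool.Agent.Helper37.T5b
open Pool.Agent.Helper30.T5b hiding pz_prime pz_inj
open Pool.Agent.Helper84.T5b Pool.Agent.Helper44.T5 Pool.Agent.Helper44.T5b

theorem zbad_same (m k : ℕ) (hm : 2 ≤ m) : ZbadS SameB m k := by
  obtain ⟨C, K0, h⟩ := Pool.Agent.Helper57.T5b.zbad m k hm
  refine ⟨C, K0, ?_⟩
  intro l' l i hl' hl _ hs hb h1 h2 K hK hK'
  have hb' : bL m k l' = bL m k l := hb
  rw [hb']
  exact h l' l i hl' hl hs hb h1 h2 K hK hK'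

/-- all lines except Nb7 and Nb9 -/
theorem lines_same (h7 : ∀ m, 2 ≤ m → PpRegS m (m ^ 2))
    (h9 : ∀ m, 2 ≤ m → PpBotS SameB m (m ^ 2)) : Lines SameB where
  nearR := fun m hm => near_R m (m ^ 2) hm
  badCtx := fun m hm => Pool.Agent.Helper50.T5b.bad_ctx m (m ^ 2) hm
  cardJx := fun m hm => Pool.Agent.Helper50.T5b.card_Jx m (m ^ 2) hm
  num := fun m hm => Pool.Agent.Helper63.T5b.numbers m (m ^ 2) hm
  slInst := fun m hm => Pool.Agent.Helper39.T5b.sl_inst m (m ^ 2) hm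
  regAll := fun m hm => Pool.Agent.Helper45.T5b.reg_all m (m ^ 2) hm
  ppReg := h7
  zbad := fun m hm => zbad_same m (m ^ 2) hm
  ppBot := h9
  numReg := Pool.Agent.Helper37.T5b.NumB.num_reg
  numBot := Pool.Agent.Helper37.T5b.NumB.num_bot
  numSmall := Pool.Agent.Helper2.T5b.numSmall

/-- all lines except Nb7 and Nb9D -/
theorem lines_drop (h7 : ∀ m, 2 ≤ m → PpRegS m (m ^ 2))
    (h9 : ∀ m, 2 ≤ m → PpBotS Drop m (m ^ 2)) : Lines Drop where
  nearR := fun m hm => near_R m (m ^ 2) hm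
  badCtx := fun m hm => Pool.Agent.Helper50.T5b.bad_ctx m (m ^ 2) hm
  cardJx := fun m hm => Pool.Agent.Helper50.T5b.card_Jx m (m ^ 2) hm
  num := fun m hm => Pool.Agent.Helper63.T5b.numbers m (m ^ 2) hm
  slInst := fun m hm => Pool.Agent.Helper39.T5b.sl_inst m (m ^ 2) hm
  regAll := fun m hm => Pool.Agent.Helper45.T5b.reg_all m (m ^ 2) hm
  ppReg := h7
  zbad := fun m hm => Pool.Agent.Helper83.T5b.zbadD hm (by positivity)
  ppBot := h9
  numReg := Pool.Agent.Helper37.T5b.NumB.num_reg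
  numBot := Pool.Agent.Helper37.T5b.NumB.num_bot
  numSmall := Pool.Agent.Helper2.T5b.numSmall

end Pool.Agent.Helper22.NEARb
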